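import Pool.Agent.X265.Dan.Tri

/-!
# The surfaces `x y = z ^ 2 - c`: linear automorphisms
-/

set_option autoImplicit false

namespace Pool.Agent.X265.Quad

open scoped Polynomial
open Pool.Agent.X265.Dan

variable {k : Type} [CommRing k]

/-- the polynomial `t ^ 2 - c` -/
noncomputable def QP (c : k) : k[X] := Polynomial.X ^ 2 - Polynomial.C c

variable {c : k}

theorem QP_deg [Nontrivial k] : (QP c).natDegree = 2 := Polynomial.natDegree_X_pow_sub_C

theorem QP_ne [Nontrivial k] : QP c ≠ 0 := by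
  intro h
  have := QP_deg (c := c)
  rw [h, Polynomial.natDegree_zero] at this
  omega

theorem QP_aeval {R : Type} [CommRing R] [Algebra k R] (u : R) :
    Polynomial.aeval u (QP c) = u ^ 2 - algebraMap k R c := by
  unfold QP
  rw [map_sub, map_pow, Polynomial.aeval_X, Polynomial.aeval_C]

/-- the space of the linear forms in `x`, `y`, `z` -/
noncomputable def V (c : k) : Submodule k (SA (QP c)) :=
  Submodule.span k {gx (QP c), gy (QP c), gz (QP c)}

theorem mem_V {v : SA (QP c)} : v ∈ V c ↔ ∃ a b d : k,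
    a • gx (QP c) + b • gy (QP c) + d • gz (QP c) = v := Submodule.mem_span_triple

theorem x_mem : gx (QP c) ∈ V c := Submodule.subset_span (by simp)
theorem y_mem : gy (QP c) ∈ V c := Submodule.subset_span (by simp)
theorem z_mem : gz (QP c) ∈ V c := Submodule.subset_span (by simp)

/-- the image of `v` under `g` -/
noncomputable def app {P : k[X]} (g : SA P ≃ₐ[k] SA P) (v : SA P) : SA P := g v

/-- `g` is linear: it maps the space of the linear forms onto itself -/
def IsLin (g : SA (QP c) ≃ₐ[k] SA (QP c)) : Prop := ∀ v, app g v ∈ V c ↔ v ∈ V c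

/-- the group of the linear automorphisms -/
noncomputable def L2 (c : k) : Subgroup (SA (QP c) ≃ₐ[k] SA (QP c)) where
  carrier := {g | IsLin g}
  one_mem' := fun v => Iff.rfl
  mul_mem' := fun {g h} hg hh v => (hg (h v)).trans (hh v)
  inv_mem' := fun {g} hg v => by
    have h1 := hg (g⁻¹ v)
    rw [show app g (g⁻¹ v) = v from g.apply_symm_apply v] at h1
    exact h1.symm

theorem L2_apply {g : SA (QP c) ≃ₐ[k] SA (QP c)} (hg : g ∈ L2 c) (v : SA (QP c)) :
    g v ∈ V c ↔ v ∈ V c := hg v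

theorem map_V (f : SA (QP c) →ₐ[k] SA (QP c)) (hx : f (gx (QP c)) ∈ V c) (hy : f (gy (QP c)) ∈ V c)
    (hz : f (gz (QP c)) ∈ V c) {v : SA (QP c)} (hv : v ∈ V c) : f v ∈ V c := by
  obtain ⟨a, b, d, rfl⟩ := mem_V.1 hv
  rw [map_add, map_add, map_smul, map_smul, map_smul]
  exact add_mem (add_mem (Submodule.smul_mem _ _ hx) (Submodule.smul_mem _ _ hy))
    (Submodule.smul_mem _ _ hz)

theorem mem_L2 {g : SA (QP c) ≃ₐ[k] SA (QP c)} (hx : g (gx (QP c)) ∈ V c)
    (hy : g (gy (QP c)) ∈ V c) (hz : g (gz (QP c)) ∈ V c) (hx' : g⁻¹ (gx (QP c)) ∈ V c)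
    (hy' : g⁻¹ (gy (QP c)) ∈ V c) (hz' : g⁻¹ (gz (QP c)) ∈ V c) : g ∈ L2 c := by
  intro v
  constructor
  · intro h
    have h1 := map_V ((g⁻¹ : SA (QP c) ≃ₐ[k] SA (QP c)) : SA (QP c) →ₐ[k] SA (QP c)) hx' hy' hz' h
    have h2 : g⁻¹ (g v) = v := g.symm_apply_apply v
    change g⁻¹ (g v) ∈ V c at h1
    rwa [h2] at h1
  · intro h
    exact map_V (g : SA (QP c) →ₐ[k] SA (QP c)) hx hy hz h

theorem eh_V (a m : kˣ) (n : k) (h : Sym (QP c) m n) (hn : n = 0) :
    eh a m n h (gx (QP c)) ∈ V c ∧ eh a m n h (gy (QP c)) ∈ V c ∧ eh a m n h (gz (QP c)) ∈ V c := by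
  refine ⟨?_, ?_, ?_⟩
  · unfold eh
    rw [pt_x]
    exact Submodule.smul_mem _ _ x_mem
  · unfold eh
    rw [pt_y]
    exact Submodule.smul_mem _ _ y_mem
  · unfold eh
    rw [pt_z, hn, map_zero, add_zero]
    exact Submodule.smul_mem _ _ z_mem

theorem E_mem (a m : kˣ) (h : Sym (QP c) m 0) : E a m 0 h ∈ L2 c := by
  obtain ⟨h1, h2, h3⟩ := eh_V a m 0 h rfl
  obtain ⟨k1, k2, k3⟩ := eh_V a⁻¹ m⁻¹ (-(((m⁻¹ : kˣ) : k) * 0)) h.inv (by rw [mul_zero, neg_zero])
  exact mem_L2 h1 h2 h3 k1 k2 k3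

section dom

variable [IsDomain k]

theorem th_V (f : k) : th (QP c) (Polynomial.C f) (gx (QP c)) ∈ V c ∧
    th (QP c) (Polynomial.C f) (gy (QP c)) ∈ V c ∧ th (QP c) (Polynomial.C f) (gz (QP c)) ∈ V c := by
  refine ⟨?_, ?_, ?_⟩
  · rw [th_x]; exact x_mem
  · have hr := hom_rel (th (QP c) (Polynomial.C f))
    have hr2 := gxy (P := QP c)
    rw [th_x, th_z, QP_aeval, Polynomial.aeval_C] at hr
    rw [QP_aeval] at hr2
    have h2 : gx (QP c) * (th (QP c) (Polynomial.C f) (gy (QP c)) -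
        (gy (QP c) + (2 * f) • gz (QP c) + (f ^ 2) • gx (QP c))) = 0 := by
      simp only [Algebra.smul_def, map_mul, map_pow, map_ofNat]
      linear_combination hr - hr2
    have h3 := sub_eq_zero.1 (gx_reg QP_ne h2)
    rw [h3]
    exact add_mem (add_mem y_mem (Submodule.smul_mem _ _ z_mem)) (Submodule.smul_mem _ _ x_mem)
  · rw [th_z, Polynomial.aeval_C, mul_comm, ← Algebra.smul_def]
    exact add_mem z_mem (Submodule.smul_mem _ _ x_mem)

theorem tri_mem (f : k) : tri (QP_ne (c := c)) (Polynomial.C f) ∈ L2 c := by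
  obtain ⟨h1, h2, h3⟩ := th_V (c := c) f
  obtain ⟨k1, k2, k3⟩ := th_V (c := c) (-f)
  rw [map_neg] at k1 k2 k3
  exact mem_L2 h1 h2 h3 k1 k2 k3

theorem tri_isJ (F : k[X]) : IsJ (tri (QP_ne (c := c)) F) 1 1 0 F := by
  refine ⟨?_, ?_⟩
  · rw [Units.val_one, one_smul]
    exact th_x F
  · rw [Units.val_one, one_smul, map_zero, add_zero]
    exact th_z F

/-- the symmetries have no translation -/
theorem sym_zero (h2 : (2 : k) ≠ 0) {m : kˣ} {n : k} (h : Sym (QP c) m n) : n = 0 := by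
  unfold Dan.Sym at h
  rw [QP_deg] at h
  have h1 := congrArg (fun q => Polynomial.coeff q 1) h
  have e : (QP c).comp ((m : k) • Polynomial.X + Polynomial.C n) =
      Polynomial.C ((m : k) ^ 2) * Polynomial.X ^ 2 + Polynomial.C (2 * m * n) * Polynomial.X +
        Polynomial.C (n ^ 2 - c) := by
    unfold QP
    rw [Polynomial.sub_comp, Polynomial.pow_comp, Polynomial.X_comp, Polynomial.C_comp,
      Polynomial.smul_eq_C_mul]
    simp only [map_mul, map_pow, map_sub, map_ofNat]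
    ring
  beta_reduce at h1
  rw [e] at h1
  unfold QP at h1
  simp only [Polynomial.coeff_add, Polynomial.coeff_C_mul, Polynomial.coeff_X_pow,
    Polynomial.coeff_X_one, Polynomial.coeff_C_succ, Polynomial.coeff_smul, Polynomial.coeff_sub,
    smul_eq_mul] at h1
  have h3 : 2 * (m : k) * n = 0 := by simpa using h1
  rcases mul_eq_zero.1 h3 with h4 | h4
  · rcases mul_eq_zero.1 h4 with h5 | h5
    · exact absurd h5 h2
    · exact absurd h5 m.ne_zero
  · exact h4

/-- the linear triangular automorphism with given data -/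
noncomputable def E2 (a m : kˣ) (f : k) (h : Sym (QP c) m 0) : SA (QP c) ≃ₐ[k] SA (QP c) :=
  E a m 0 h * tri (QP_ne (c := c)) (Polynomial.C (((a⁻¹ : kˣ) : k) * f))

theorem E2_isJ (a m : kˣ) (f : k) (h : Sym (QP c) m 0) : IsJ (E2 a m f h) a m 0 (Polynomial.C f) := by
  have h1 := (E_isJ a m 0 h).mul (tri_isJ (c := c) (Polynomial.C (((a⁻¹ : kˣ) : k) * f)))
  have e1 : ((1 : kˣ) : k) • (0 : k[X]) + (a : k) • (Polynomial.C (((a⁻¹ : kˣ) : k) * f)).comp
      ((a : k) • Polynomial.X) = Polynomial.C f := by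
    rw [smul_zero, zero_add, Polynomial.C_comp, Polynomial.smul_C, smul_eq_mul, ← mul_assoc,
      Units.mul_inv, one_mul]
  rw [e1, one_mul, one_mul, mul_zero, zero_add] at h1
  exact h1

theorem E2_mem_L (a m : kˣ) (f : k) (h : Sym (QP c) m 0) : E2 a m f h ∈ L2 c :=
  mul_mem (E_mem a m h) (tri_mem _)

theorem E2_mem_J (a m : kˣ) (f : k) (h : Sym (QP c) m 0) : E2 a m f h ∈ J (QP c) :=
  ⟨_, _, _, _, E2_isJ a m f h⟩

theorem eq_E2 {g : SA (QP c) ≃ₐ[k] SA (QP c)} {a m : kˣ} {f : k}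
    (h : IsJ g a m 0 (Polynomial.C f)) (hs : Sym (QP c) m 0) : g = E2 a m f hs := by
  have k1 := E2_isJ a m f hs
  apply ext_xz QP_ne
  · rw [h.1, k1.1]
  · rw [h.2, k1.2]

/-- a point with a `y`-coordinate of degree two -/
noncomputable def p2 (c : k) : SA (QP c) →ₐ[k] k[X] := pt 1 (QP c) Polynomial.X (by
  rw [one_mul, Polynomial.aeval_X_left_apply])

theorem p2_x : p2 c (gx (QP c)) = 1 := pt_x _ _ _ _
theorem p2_y : p2 c (gy (QP c)) = QP c := pt_y _ _ _ _
theorem p2_z : p2 c (gz (QP c)) = Polynomial.X := pt_z _ _ _ _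

theorem coeff2 (a b d : k) : (Polynomial.C a + Polynomial.C b * QP c + Polynomial.C d * Polynomial.X).coeff 2
    = b := by
  unfold QP
  rw [Polynomial.coeff_add, Polynomial.coeff_add, Polynomial.coeff_C_mul, Polynomial.coeff_sub,
    Polynomial.coeff_X_pow, Polynomial.coeff_C_mul]
  simp [Polynomial.coeff_C, Polynomial.coeff_X]

/-- linear automorphisms which do not involve `y` in the image of `x` are triangular -/
theorem isJ_of_L2 {g : SA (QP c) ≃ₐ[k] SA (QP c)} (hg : g ∈ L2 c) {a d : k}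
    (hx : g (gx (QP c)) = a • gx (QP c) + d • gz (QP c)) :
    ∃ (m m' : k) (f : k), g (gx (QP c)) = m • gx (QP c) ∧
      g (gz (QP c)) = m' • gz (QP c) + f • gx (QP c) := by
  obtain ⟨a', b', d', hy⟩ := mem_V.1 ((L2_apply hg _).2 y_mem)
  obtain ⟨a'', b'', d'', hz⟩ := mem_V.1 ((L2_apply hg _).2 z_mem)
  have hev : ∀ a b d : k, p2 c (a • gx (QP c) + b • gy (QP c) + d • gz (QP c)) =
      Polynomial.C a + Polynomial.C b * QP c + Polynomial.C d * Polynomial.X := by
    intro a b d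
    rw [map_add, map_add, map_smul, map_smul, map_smul, p2_x, p2_y, p2_z]
    simp only [Polynomial.smul_eq_C_mul, mul_one]
  have hev0 : p2 c (a • gx (QP c) + d • gz (QP c)) =
      Polynomial.C a + Polynomial.C d * Polynomial.X := by
    rw [map_add, map_smul, map_smul, p2_x, p2_z]
    simp only [Polynomial.smul_eq_C_mul, mul_one]
  have hr := hom_rel ((p2 c).comp (g : SA (QP c) →ₐ[k] SA (QP c)))
  change p2 c (g (gx (QP c))) * p2 c (g (gy (QP c))) =
    Polynomial.aeval (p2 c (g (gz (QP c)))) (QP c) at hr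
  rw [hx, ← hy, ← hz, hev0, hev, hev, QP_aeval] at hr
  have hr1 : Polynomial.C (b'' ^ 2) * Polynomial.X ^ 4 +
      Polynomial.C (2 * b'' * d'' - d * b') * Polynomial.X ^ 3 +
      Polynomial.C ((d'' ^ 2 + 2 * b'' * (a'' - b'' * c)) - (a * b' + d * d')) * Polynomial.X ^ 2 +
      Polynomial.C (2 * (a'' - b'' * c) * d'' - (a * d' + d * (a' - b' * c))) * Polynomial.X +
      Polynomial.C ((a'' - b'' * c) ^ 2 - c - a * (a' - b' * c)) = 0 := by
    have e : algebraMap k k[X] c = Polynomial.C c := rfl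
    rw [e] at hr
    unfold QP at hr
    simp only [map_mul, map_pow, map_sub, map_add, map_ofNat]
    linear_combination -hr
  have h4 := congrArg (fun q => Polynomial.coeff q 4) hr1
  have h3 := congrArg (fun q => Polynomial.coeff q 3) hr1
  simp only [Polynomial.coeff_add, Polynomial.coeff_C_mul, Polynomial.coeff_X_pow, Polynomial.coeff_X,
    Polynomial.coeff_C, Polynomial.coeff_zero] at h4 h3
  norm_num at h4 h3
  -- `b'' = 0`
  subst h4
  rw [mul_zero, zero_mul, zero_sub, neg_eq_zero] at h3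
  have hb' : b' ≠ 0 := by
    rintro rfl
    -- `y` would be a combination of `x` and `z`
    obtain ⟨u1, u2, u3, hu⟩ := mem_V.1 ((L2_apply ((L2 c).inv_mem hg) _).2 (y_mem (c := c)))
    have h5 := congrArg g hu
    rw [show g (g⁻¹ (gy (QP c))) = gy (QP c) from g.apply_symm_apply _, map_add, map_add, map_smul,
      map_smul, map_smul, hx, ← hy, ← hz, zero_smul, add_zero, add_zero] at h5
    have h6 := congrArg (p2 c) h5
    have h7 : u1 • (a • gx (QP c) + d • gz (QP c)) + u2 • (a' • gx (QP c) + d' • gz (QP c)) +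
        u3 • (a'' • gx (QP c) + d'' • gz (QP c)) =
        (u1 * a + u2 * a' + u3 * a'') • gx (QP c) + (0 : k) • gy (QP c) +
          (u1 * d + u2 * d' + u3 * d'') • gz (QP c) := by
      simp only [Algebra.smul_def, map_mul, map_add, map_zero]
      ring
    rw [h7, hev, p2_y] at h6
    have h8 := congrArg (fun q => Polynomial.coeff q 2) h6
    beta_reduce at h8
    rw [coeff2] at h8
    have h9 : (QP c).coeff 2 = 1 := by
      unfold QP
      simp [Polynomial.coeff_C]
    rw [h9] at h8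
    exact zero_ne_one h8
  have hd : d = 0 := by
    rcases mul_eq_zero.1 h3 with h | h
    · exact h
    · exact absurd h hb'
  subst hd
  refine ⟨a, d'', a'', ?_, ?_⟩
  · rw [hx, zero_smul, add_zero]
  · rw [← hz, zero_smul, add_zero, add_comm]

end dom

end Pool.Agent.X265.Quad
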