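import Pool.Agent.X265.Quad.Main

/-!
# The group generated by the linear and the triangular automorphisms of `x y = z ^ 2 - c`
-/

set_option autoImplicit false

namespace Pool.Agent.X265.Quad

open scoped Polynomial
open Pool.Agent.Y110.FJ Pool.Agent.X265.Dan

variable {k : Type} [CommRing k]

/-- the function `x F(x)` -/
noncomputable def xF (P F : k[X]) : SA P := gx P * Polynomial.aeval (gx P) F

/-- `g` is an automorphism with `x ↦ x` and `z ↦ z + x F(x)` for some polynomial `F` -/
def IsUni {P : k[X]} (g : SA P ≃ₐ[k] SA P) : Prop :=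
  app g (gx P) = gx P ∧ ∃ F : k[X], app g (gz P) = gz P + xF P F

/-- the group generated by the linear automorphisms and the automorphisms with `x ↦ x` and
`z ↦ z + x F(x)` -/
noncomputable def QG (c : k) : Subgroup (SA (QP c) ≃ₐ[k] SA (QP c)) :=
  Subgroup.closure {g | IsLin g ∨ IsUni g}

variable {c : k} [IsDomain k]

theorem QG_eq (h2 : (2 : k) ≠ 0) : QG c = J (QP c) ⊔ L2 c := by
  apply le_antisymm
  · unfold QG
    rw [Subgroup.closure_le]
    rintro g (h | ⟨h1, F, h3⟩)
    · exact Subgroup.mem_sup_right h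
    · refine Subgroup.mem_sup_left ⟨1, 1, 0, F, ?_, ?_⟩
      · rw [show g (gx (QP c)) = _ from h1, Units.val_one, one_smul]
      · rw [show g (gz (QP c)) = _ from h3, Units.val_one, one_smul, map_zero, add_zero]
        rfl
  · apply sup_le
    · rintro g ⟨a, m, n, F, h⟩
      have hs := h.sym (QP_deg (c := c)).ge
      have hn := sym_zero h2 hs
      subst hn
      have hE := (E_isJ a m 0 hs).inv
      have hg := h.mul hE
      have e1 : g = g * (E a m 0 hs)⁻¹ * E a m 0 hs := by group
      rw [e1]
      refine mul_mem (Subgroup.subset_closure (Or.inr ⟨?_, ((m⁻¹ : kˣ) : k) • F, ?_⟩))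
        (Subgroup.subset_closure (Or.inl (E_mem a m hs)))
      · show (g * (E a m 0 hs)⁻¹) (gx (QP c)) = _
        rw [hg.1, inv_mul_cancel, Units.val_one, one_smul]
      · show (g * (E a m 0 hs)⁻¹) (gz (QP c)) = _
        rw [hg.2, inv_mul_cancel, Units.val_one, one_smul]
        unfold xF
        simp
    · intro g hg
      exact Subgroup.subset_closure (Or.inl hg)

theorem c_QG {C : ∀ (G : Type) [Group G], Prop} (hC : ClosedE C)
    (hab : ∀ (H : Type) [Group H] (A : Subgroup H) [A.Normal], (∀ a ∈ A, ∀ b ∈ A, a * b = b * a) →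
      IsCyclic (H ⧸ A) → C H) (h2 : (2 : k) ≠ 0) : C ↥(QG c) ↔ C ↥(L2 c) := by
  rw [QG_eq h2]
  exact main hC hab h2

end Pool.Agent.X265.Quad
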