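import Pool.Agent.X265.Quad.Base

/-!
# The automorphism groups of the surfaces `x y = z ^ 2 - c`
-/

set_option autoImplicit false

namespace Pool.Agent.X265.Quad

open scoped Polynomial
open Pool.Agent.Y110.FJ Pool.Agent.X176.FJ Pool.Agent.X265.Ngo Pool.Agent.X265.Dan

variable {k : Type} [CommRing k] {c : k} [IsDomain k]

theorem L2_isJ {g : SA (QP c) ≃ₐ[k] SA (QP c)} (hg : g ∈ L2 c) {a d : k}
    (hx : g (gx (QP c)) = a • gx (QP c) + d • gz (QP c)) :
    ∃ (m m' : kˣ) (f : k), IsJ g m m' 0 (Polynomial.C f) := by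
  obtain ⟨m, m', f, h1, h2⟩ := isJ_of_L2 hg hx
  -- `m` is a unit
  obtain ⟨u1, u2, u3, hu⟩ := mem_V.1 ((L2_apply ((L2 c).inv_mem hg) _).2 (x_mem (c := c)))
  have h3 : g⁻¹ (g (gx (QP c))) = gx (QP c) := g.symm_apply_apply _
  rw [h1, map_smul, ← hu] at h3
  have h4 := congrArg (p2 c) h3
  have h5 := congrArg (p1 (QP c)) h3
  rw [map_smul, map_add, map_add, map_smul, map_smul, map_smul, p1_x, p1_y, p1_z] at h5
  have h6 : m * u1 = 1 := by
    have h7 := congrArg (fun q => Polynomial.coeff q 2) h5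
    beta_reduce at h7
    have h8 : (QP c).coeff 2 = 1 := by
      unfold QP
      simp [Polynomial.coeff_C]
    rw [Polynomial.coeff_smul, Polynomial.coeff_add, Polynomial.coeff_add, Polynomial.coeff_smul,
      Polynomial.coeff_smul, Polynomial.coeff_smul, h8] at h7
    simpa [Polynomial.coeff_one, Polynomial.coeff_X] using h7
  obtain ⟨m, rfl⟩ := IsUnit.of_mul_eq_one _ h6
  have h7 : g⁻¹ (gx (QP c)) = ((m⁻¹ : kˣ) : k) • gx (QP c) + (0 : k) • gz (QP c) := by
    have h8 : g⁻¹ (g (gx (QP c))) = gx (QP c) := g.symm_apply_apply _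
    rw [h1, map_smul] at h8
    rw [zero_smul, add_zero]
    calc g⁻¹ (gx (QP c)) = ((m⁻¹ : kˣ) : k) • (m : k) • g⁻¹ (gx (QP c)) := by
          rw [smul_smul, Units.inv_mul, one_smul]
      _ = _ := by rw [h8]
  obtain ⟨v, v', e, h8, h9⟩ := isJ_of_L2 ((L2 c).inv_mem hg) h7
  have h10 : g (g⁻¹ (gz (QP c))) = gz (QP c) := g.apply_symm_apply _
  rw [h9, map_add, map_smul, map_smul, h2, h1] at h10
  have h11 := congrArg (p2 c) h10
  rw [map_add, map_smul, map_add, map_smul, map_smul, map_smul, map_smul, p2_x, p2_z] at h11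
  have h12 : m' * v' = 1 := by
    have h13 := congrArg (fun q => Polynomial.coeff q 1) h11
    beta_reduce at h13
    rw [Polynomial.coeff_add, Polynomial.coeff_smul, Polynomial.coeff_add, Polynomial.coeff_smul,
      Polynomial.coeff_smul, Polynomial.coeff_smul, Polynomial.coeff_smul, Polynomial.coeff_X_one] at h13
    have h14 : (1 : k[X]).coeff 1 = 0 := Polynomial.coeff_one.trans (if_neg one_ne_zero)
    rw [h14] at h13
    simp only [smul_eq_mul, mul_zero, mul_one, add_zero] at h13
    rw [mul_comm]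
    exact h13
  obtain ⟨m', rfl⟩ := IsUnit.of_mul_eq_one _ h12
  refine ⟨m, m', f, h1, ?_⟩
  rw [h2, map_zero, add_zero, Polynomial.aeval_C, mul_comm (gx (QP c)), ← Algebra.smul_def]

theorem E2_congr {a a' m m' : kˣ} {f f' : k} (ha : a = a') (hm : m = m') (hf : f = f')
    (h : Dan.Sym (QP c) m 0) (h' : Dan.Sym (QP c) m' 0) : E2 a m f h = E2 a' m' f' h' := by
  subst ha hm hf
  rfl

theorem coeff0_comp (p : k[X]) (b : k) : (p.comp (b • Polynomial.X)).coeff 0 = p.coeff 0 := by
  rw [Polynomial.coeff_zero_eq_eval_zero, Polynomial.coeff_zero_eq_eval_zero, Polynomial.eval_comp]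
  simp

variable {C : ∀ (G : Type) [Group G], Prop}

/-- **automorphisms of the surfaces `x y = z ^ 2 - c`** -/
theorem main (hC : ClosedE C)
    (hab : ∀ (H : Type) [Group H] (A : Subgroup H) [A.Normal], (∀ a ∈ A, ∀ b ∈ A, a * b = b * a) →
      IsCyclic (H ⧸ A) → C H) (h2 : (2 : k) ≠ 0) : C ↥(J (QP c) ⊔ L2 c) ↔ C (L2 c) := by
  classical
  have hP0 := QP_ne (c := c)
  have hPd := QP_deg (c := c)
  have hP : 2 ≤ (QP c).natDegree := hPd.ge
  let _ := actP (QP c)
  have hsm : ∀ (g : SA (QP c) ≃ₐ[k] SA (QP c)) (f : SA (QP c) →ₐ[k] k[X]) (x : SA (QP c)),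
    (g • f) x = f (g⁻¹ x) := fun _ _ _ => rfl
  have hsym : ∀ {g : SA (QP c) ≃ₐ[k] SA (QP c)} {a m : kˣ} {n : k} {F : k[X]} (_ : IsJ g a m n F),
      n = 0 := fun h => sym_zero h2 (h.sym hP)
  have hsym0 : ∀ {g : SA (QP c) ≃ₐ[k] SA (QP c)} {a m : kˣ} {n : k} {F : k[X]} (_ : IsJ g a m n F),
      Dan.Sym (QP c) m 0 := by
    intro g a m n F h
    have h1 := h.sym hP
    rw [hsym h] at h1
    exact h1
  let ρ : (SA (QP c) ≃ₐ[k] SA (QP c)) → (SA (QP c) ≃ₐ[k] SA (QP c)) := fun g =>
    if h : g ∈ J (QP c) then E2 (exJ ⟨g, h⟩).choose.1 (exJ ⟨g, h⟩).choose.2.1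
      ((exJ ⟨g, h⟩).choose.2.2.2.coeff 0) (hsym0 (exJ ⟨g, h⟩).choose_spec) else 1
  have hρe : ∀ {g : SA (QP c) ≃ₐ[k] SA (QP c)} {a m : kˣ} {n : k} {F : k[X]} (h : IsJ g a m n F),
      ρ g = E2 a m (F.coeff 0) (hsym0 h) := by
    intro g a m n F h
    have hg : g ∈ J (QP c) := ⟨a, m, n, F, h⟩
    have h1 : ρ g = E2 (exJ ⟨g, hg⟩).choose.1 (exJ ⟨g, hg⟩).choose.2.1
      ((exJ ⟨g, hg⟩).choose.2.2.2.coeff 0) (hsym0 (exJ ⟨g, hg⟩).choose_spec) := dif_pos hg
    rw [h1]
    have h3 := exJ_eq hP ⟨g, hg⟩ h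
    exact E2_congr (by rw [h3]) (by rw [h3]) (by rw [h3]) _ _
  have hcne : ∀ (c : kˣ) (Q : k[X]), ((c : k) • Q).natDegree = Q.natDegree := by
    intro c Q
    rw [Polynomial.smul_eq_C_mul]
    exact Polynomial.natDegree_C_mul c.ne_zero
  have hcle : ∀ (c : k) (Q : k[X]), (c • Q).natDegree ≤ Q.natDegree :=
    fun c Q => Polynomial.natDegree_smul_le c Q
  have hpd : ∀ f : SA (QP c) →ₐ[k] k[X],
      2 * (f (gz (QP c))).natDegree ≤ (f (gx (QP c))).natDegree + (f (gy (QP c))).natDegree := by
    intro f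
    have := point_deg (R := k[X]) f
    rwa [hPd] at this
  have hCJ : C (J (QP c)) := by
    refine c_abker hC hab (lamJ hP) (c_comm hab _) ?_
    intro g h hg hh
    obtain ⟨a, m, n, F, h1⟩ := g.2
    obtain ⟨a', m', n', F', h3⟩ := h.2
    rw [lamJ_eq hP g h1, Prod.mk_eq_one] at hg
    rw [lamJ_eq hP h h3, Prod.mk_eq_one] at hh
    obtain ⟨rfl, rfl⟩ := hg
    obtain ⟨rfl, rfl⟩ := hh
    apply Subtype.ext
    have k1 := h1.mul h3
    have k2 := h3.mul h1
    apply ext_xz hP0
    · show (g.1 * h.1) (gx (QP c)) = (h.1 * g.1) (gx (QP c))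
      rw [k1.1, k2.1]
    · show (g.1 * h.1) (gz (QP c)) = (h.1 * g.1) (gz (QP c))
      rw [k1.2, k2.2]
      have e1 : ((1 : kˣ) : k) • F + ((1 : kˣ) : k) • F'.comp (((1 : kˣ) : k) • Polynomial.X) =
          ((1 : kˣ) : k) • F' + ((1 : kˣ) : k) • F.comp (((1 : kˣ) : k) • Polynomial.X) := by
        simp only [Units.val_one, one_smul, Polynomial.comp_X]
        exact add_comm _ _
      rw [e1, Units.val_one, one_mul n, one_mul n', add_comm n n']
  have key := c_gen (C := C) hC (Ω := SA (QP c) →ₐ[k] k[X]) (M := ℕ) (J (QP c)) (L2 c)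
    {f | (f (gy (QP c))).natDegree ≤ (f (gx (QP c))).natDegree ∧ 1 ≤ (f (gx (QP c))).natDegree}
    {f | (f (gx (QP c))).natDegree < (f (gy (QP c))).natDegree}
    (fun f => max (f (gx (QP c))).natDegree (f (gy (QP c))).natDegree)
    ⟨p1 (QP c), by
      show Polynomial.natDegree _ ≤ Polynomial.natDegree _ ∧ 1 ≤ Polynomial.natDegree _
      rw [p1_x, p1_y, Polynomial.natDegree_one]
      omega⟩
    ⟨p2 c, by
      show Polynomial.natDegree _ < Polynomial.natDegree _
      rw [p2_x, p2_y, Polynomial.natDegree_one]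
      omega⟩
    ?_ ?_ ρ ?_ ?_ ?_
  · rw [key]
    exact ⟨fun h => h.2, fun h => ⟨hCJ, h⟩⟩
  · -- triangular automorphisms
    rintro g hg hgL f ⟨hf1, hf2⟩
    obtain ⟨a, m, n, F, h⟩ := (J (QP c)).inv_mem hg
    have hn := hsym h
    have hs := hsym0 h
    subst hn
    have hF1 : 1 ≤ F.natDegree := by
      by_contra hlt
      have hF0 : F.natDegree = 0 := by omega
      apply hgL
      rw [Polynomial.eq_C_of_natDegree_eq_zero hF0] at h
      rw [← (L2 c).inv_mem_iff, eq_E2 h hs]
      exact E2_mem_L _ _ _ _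
    have hF : F ≠ 0 := by
      rintro rfl
      rw [Polynomial.natDegree_zero] at hF1
      omega
    have hx : (g • f) (gx (QP c)) = (a : k) • f (gx (QP c)) := by rw [hsm, h.1, map_smul]
    have hz : (g • f) (gz (QP c)) = (m : k) • f (gz (QP c)) +
        f (gx (QP c)) * F.comp (f (gx (QP c))) := by
      rw [hsm, h.2, map_zero, add_zero, map_add, map_smul, map_mul, ← Polynomial.aeval_algHom_apply]
      rfl
    have hd := hpd f
    have hdz : (f (gz (QP c))).natDegree ≤ (f (gx (QP c))).natDegree := by omega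
    have hx0 : f (gx (QP c)) ≠ 0 := by
      intro h0
      rw [h0, Polynomial.natDegree_zero] at hf2
      omega
    have hFc : F.comp (f (gx (QP c))) ≠ 0 := by
      intro h0
      rcases Polynomial.comp_eq_zero_iff.1 h0 with h6 | ⟨-, h6⟩
      · exact hF h6
      · rw [h6, Polynomial.natDegree_C] at hf2
        omega
    have hd1 : (f (gx (QP c)) * F.comp (f (gx (QP c)))).natDegree =
        (f (gx (QP c))).natDegree + F.natDegree * (f (gx (QP c))).natDegree := by
      rw [Polynomial.natDegree_mul hx0 hFc, Polynomial.natDegree_comp]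
    have hge : (f (gx (QP c))).natDegree ≤ F.natDegree * (f (gx (QP c))).natDegree :=
      Nat.le_mul_of_pos_left _ hF1
    have hzd : ((g • f) (gz (QP c))).natDegree =
        (f (gx (QP c))).natDegree + F.natDegree * (f (gx (QP c))).natDegree := by
      rw [hz, ← hd1]
      apply Polynomial.natDegree_add_eq_right_of_natDegree_lt
      rw [hd1, hcne]
      omega
    have hxd : ((g • f) (gx (QP c))).natDegree = (f (gx (QP c))).natDegree := by rw [hx, hcne]
    have hrel := hom_rel (g • f)
    have hPd' : (Polynomial.aeval ((g • f) (gz (QP c))) (QP c)).natDegree =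
        2 * ((g • f) (gz (QP c))).natDegree := by
      have : (Polynomial.aeval ((g • f) (gz (QP c))) (QP c)).natDegree =
        (QP c).natDegree * ((g • f) (gz (QP c))).natDegree := Polynomial.natDegree_comp
      rwa [hPd] at this
    have hyd : ((g • f) (gx (QP c))).natDegree + ((g • f) (gy (QP c))).natDegree =
        2 * ((g • f) (gz (QP c))).natDegree := by
      rw [← hPd', ← hrel]
      symm
      apply Polynomial.natDegree_mul
      · intro h0
        rw [h0, Polynomial.natDegree_zero] at hxd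
        omega
      · intro h0
        rw [h0, mul_zero] at hrel
        rw [← hrel, Polynomial.natDegree_zero, hzd] at hPd'
        omega
    have hgt : (f (gx (QP c))).natDegree < ((g • f) (gy (QP c))).natDegree := by
      rw [hxd, hzd] at hyd
      omega
    refine ⟨?_, ?_⟩
    · show ((g • f) (gx (QP c))).natDegree < ((g • f) (gy (QP c))).natDegree
      rw [hxd]; exact hgt
    · show max (f (gx (QP c))).natDegree (f (gy (QP c))).natDegree <
        max ((g • f) (gx (QP c))).natDegree ((g • f) (gy (QP c))).natDegree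
      rw [max_eq_left hf1]
      exact lt_max_of_lt_right hgt
  · -- linear automorphisms
    intro g hg hgJ f hf
    have hf' : (f (gx (QP c))).natDegree < (f (gy (QP c))).natDegree := hf
    have hg' : g⁻¹ ∈ L2 c := (L2 c).inv_mem hg
    obtain ⟨a, b, d, h1⟩ := mem_V.1 ((L2_apply hg' _).2 x_mem)
    obtain ⟨a', b', d', h3⟩ := mem_V.1 ((L2_apply hg' _).2 y_mem)
    have hb : b ≠ 0 := by
      rintro rfl
      rw [zero_smul, add_zero] at h1
      obtain ⟨m, m', e, h4⟩ := L2_isJ hg' h1.symm
      apply hgJ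
      rw [← (J (QP c)).inv_mem_iff]
      exact ⟨_, _, _, _, h4⟩
    have hd := hpd f
    have hx : (g • f) (gx (QP c)) = a • f (gx (QP c)) + b • f (gy (QP c)) + d • f (gz (QP c)) := by
      rw [hsm, ← h1, map_add, map_add, map_smul, map_smul, map_smul]
    have hy : (g • f) (gy (QP c)) = a' • f (gx (QP c)) + b' • f (gy (QP c)) + d' • f (gz (QP c)) := by
      rw [hsm, ← h3, map_add, map_add, map_smul, map_smul, map_smul]
    have hbd : (b • f (gy (QP c))).natDegree = (f (gy (QP c))).natDegree := by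
      rw [Polynomial.smul_eq_C_mul]
      exact Polynomial.natDegree_C_mul hb
    have hxd : ((g • f) (gx (QP c))).natDegree = (f (gy (QP c))).natDegree := by
      rw [hx, add_right_comm, add_comm, Polynomial.natDegree_add_eq_left_of_natDegree_lt, hbd]
      rw [hbd]
      refine (Polynomial.natDegree_add_le _ _).trans_lt (max_lt ?_ ?_)
      · exact (hcle _ _).trans_lt hf'
      · exact (hcle _ _).trans_lt (by omega)
    have hyd : ((g • f) (gy (QP c))).natDegree ≤ (f (gy (QP c))).natDegree := by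
      rw [hy]
      refine (Polynomial.natDegree_add_le _ _).trans (max_le ?_ ?_)
      · refine (Polynomial.natDegree_add_le _ _).trans (max_le ?_ (hcle _ _))
        exact (hcle _ _).trans hf'.le
      · exact (hcle _ _).trans (by omega)
    refine ⟨⟨?_, ?_⟩, ?_⟩
    · rw [hxd]; exact hyd
    · rw [hxd]; omega
    · show max (f (gx (QP c))).natDegree (f (gy (QP c))).natDegree ≤
        max ((g • f) (gx (QP c))).natDegree ((g • f) (gy (QP c))).natDegree
      rw [max_eq_right hf'.le, hxd]
      exact le_max_left _ _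
  · intro g hg
    obtain ⟨a, m, n, F, h⟩ := hg
    rw [hρe h]
    exact ⟨E2_mem_J _ _ _ _, E2_mem_L _ _ _ _⟩
  · intro g hg h hh
    obtain ⟨a, m, n, F, h1⟩ := hg
    obtain ⟨a', m', n', F', h3⟩ := hh
    rw [hρe h1, hρe h3, hρe (h1.mul h3)]
    symm
    apply eq_E2
    have k1 := (E2_isJ a m (F.coeff 0) (hsym0 h1)).mul (E2_isJ a' m' (F'.coeff 0) (hsym0 h3))
    have e1 : (m' : k) • Polynomial.C (F.coeff 0) +
        (a : k) • (Polynomial.C (F'.coeff 0)).comp ((a : k) • Polynomial.X) =
        Polynomial.C (((m' : k) • F + (a : k) • F'.comp ((a : k) • Polynomial.X)).coeff 0) := by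
      rw [Polynomial.C_comp, Polynomial.smul_C, Polynomial.smul_C, ← Polynomial.C_add,
        Polynomial.coeff_add, Polynomial.coeff_smul, Polynomial.coeff_smul, coeff0_comp]
    rw [e1, mul_zero, zero_add] at k1
    exact k1
  · rintro g ⟨hg, hgL⟩
    obtain ⟨a, m, n, F, h⟩ := hg
    rw [hρe h]
    have hn := hsym h
    subst hn
    symm
    apply eq_E2
    -- `F` is constant
    obtain ⟨u1, u2, u3, hu⟩ := mem_V.1 ((L2_apply hgL _).2 (z_mem (c := c)))
    have h3 := congrArg (p1 (QP c)) (h.2.symm.trans hu.symm)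
    rw [map_zero, add_zero, map_add, map_smul, map_mul, ← Polynomial.aeval_algHom_apply, map_add,
      map_add, map_smul, map_smul, map_smul, p1_x, p1_y, p1_z] at h3
    have hFd : F.natDegree = 0 := by
      by_contra hne
      have hF : F ≠ 0 := by
        rintro rfl
        rw [Polynomial.natDegree_zero] at hne
        exact hne rfl
      have h4 : QP c * F.comp (QP c) = u1 • QP c + u2 • (1 : k[X]) + u3 • (Polynomial.X : k[X]) -
          (m : k) • (Polynomial.X : k[X]) := by
        have e : Polynomial.aeval (QP c) F = F.comp (QP c) := rfl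
        rw [e] at h3
        linear_combination h3
      have h5 : (QP c * F.comp (QP c)).natDegree ≤ 2 := by
        rw [h4]
        refine (Polynomial.natDegree_sub_le _ _).trans (max_le ?_ ?_)
        · refine (Polynomial.natDegree_add_le _ _).trans (max_le ?_ ?_)
          · refine (Polynomial.natDegree_add_le _ _).trans (max_le ?_ ?_)
            · exact (hcle _ _).trans hPd.le
            · exact (hcle _ _).trans (by rw [Polynomial.natDegree_one]; omega)
          · exact (hcle _ _).trans (by rw [Polynomial.natDegree_X]; omega)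
        · exact (hcle _ _).trans (by rw [Polynomial.natDegree_X]; omega)
      have h6 : F.comp (QP c) ≠ 0 := by
        intro h0
        rcases Polynomial.comp_eq_zero_iff.1 h0 with h7 | ⟨-, h7⟩
        · exact hF h7
        · rw [h7, Polynomial.natDegree_C] at hPd
          omega
      rw [Polynomial.natDegree_mul hP0 h6, Polynomial.natDegree_comp, hPd] at h5
      omega
    rw [← Polynomial.eq_C_of_natDegree_eq_zero hFd]
    exact h

end Pool.Agent.X265.Quad
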